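import Mathlib

/-!
# Project HC (helper741), part H1: coordinates of elements of small height of a number field, 1
-/

set_option autoImplicit false

namespace Pool.Agent.N264.HC

open Polynomial

/-! ### heights -/

section ht

variable {K : Type} [Field K] [NumberField K]

lemma norm_le_mulHeight₁ (τ : K →+* ℂ) (x : K) : ‖τ x‖ ≤ Height.mulHeight₁ x := by
  rw [NumberField.mulHeight₁_eq]
  have h1 : 1 ≤ ∏ᶠ v : NumberField.FinitePlace K, max (v x) 1 :=
    one_le_finprod fun _ ↦ le_max_right ..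
  have h2 : ‖τ x‖ ≤ ∏ v : NumberField.InfinitePlace K, max (v x) 1 ^ v.mult := by
    have h3 : ∀ v : NumberField.InfinitePlace K, (1 : ℝ) ≤ max (v x) 1 ^ v.mult := fun v =>
      one_le_pow₀ (le_max_right _ _)
    calc ‖τ x‖ = (NumberField.InfinitePlace.mk τ) x := rfl
      _ ≤ max ((NumberField.InfinitePlace.mk τ) x) 1 := le_max_left _ _
      _ ≤ max ((NumberField.InfinitePlace.mk τ) x) 1 ^ (NumberField.InfinitePlace.mk τ).mult :=
          le_self_pow₀ (le_max_right _ _) (NumberField.InfinitePlace.mult_pos.ne')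
      _ ≤ ∏ v : NumberField.InfinitePlace K, max (v x) 1 ^ v.mult := by
          classical
          rw [← Finset.mul_prod_erase Finset.univ (fun v : NumberField.InfinitePlace K =>
            max (v x) 1 ^ v.mult) (Finset.mem_univ (NumberField.InfinitePlace.mk τ))]
          refine le_mul_of_one_le_right (zero_le_one.trans (h3 _)) ?_
          exact Finset.prod_induction _ (fun a : ℝ => 1 ≤ a)
            (fun a b ha hb => one_le_mul_of_one_le_of_one_le ha hb) le_rfl fun v _ => h3 v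
  calc ‖τ x‖ ≤ ∏ v : NumberField.InfinitePlace K, max (v x) 1 ^ v.mult := h2
    _ ≤ _ := le_mul_of_one_le_right ((norm_nonneg _).trans h2) h1

end ht

/-! ### a primitive element -/

section prim

variable {F : Type} [Field F] [NumberField F]

lemma exists_prim {P κ : ℕ} (hκ : Module.finrank ℚ F ≤ κ) (x : Fin P → F)
    (hsep : ∀ τ τ' : F →+* ℂ, (∀ j, τ (x j) = τ' (x j)) → τ = τ') :
    ∃ c : ℕ, c ≤ P * κ ^ 2 ∧ Function.Injective fun τ : F →+* ℂ => τ (∑ j : Fin P, (c : F) ^ (j : ℕ) * x j) := by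
  classical
  let q : (F →+* ℂ) × (F →+* ℂ) → ℂ[X] := fun p => ∑ j : Fin P, C (p.1 (x j) - p.2 (x j)) * X ^ (j : ℕ)
  let S : Finset ((F →+* ℂ) × (F →+* ℂ)) := Finset.univ.filter fun p => p.1 ≠ p.2
  have hq : ∀ p ∈ S, q p ≠ 0 := by
    intro p hp h0
    rw [Finset.mem_filter] at hp
    refine hp.2 (hsep _ _ fun j => ?_)
    have h1 := congrArg (fun f : ℂ[X] => f.coeff (j : ℕ)) h0
    simp only [q, finsetSum_coeff, coeff_C_mul, coeff_X_pow, coeff_zero] at h1
    rw [Finset.sum_eq_single j (fun i _ hi => by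
      rw [if_neg (fun h => hi (Fin.ext h.symm)), mul_zero]) (by simp)] at h1
    simp only [if_true, mul_one] at h1
    exact sub_eq_zero.1 h1
  have hdeg : ∀ p, (q p).natDegree ≤ P := by
    intro p
    refine natDegree_sum_le_of_forall_le _ _ fun j _ => ?_
    exact (natDegree_C_mul_X_pow_le _ _).trans j.2.le
  have hQ : ∏ p ∈ S, q p ≠ 0 := Finset.prod_ne_zero_iff.2 hq
  have hcard : Fintype.card (F →+* ℂ) ≤ κ := by
    rw [NumberField.Embeddings.card]; exact hκ
  have hQd : (∏ p ∈ S, q p).natDegree ≤ P * κ ^ 2 := by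
    calc (∏ p ∈ S, q p).natDegree ≤ ∑ p ∈ S, (q p).natDegree := natDegree_prod_le _ _
      _ ≤ ∑ p ∈ S, P := Finset.sum_le_sum fun p _ => hdeg p
      _ = S.card * P := by rw [Finset.sum_const, smul_eq_mul]
      _ ≤ κ ^ 2 * P := by
          refine Nat.mul_le_mul_right _ ?_
          calc S.card ≤ (Finset.univ : Finset ((F →+* ℂ) × (F →+* ℂ))).card :=
                Finset.card_filter_le _ _
            _ = Fintype.card (F →+* ℂ) * Fintype.card (F →+* ℂ) := by
                rw [Finset.card_univ, Fintype.card_prod]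
            _ ≤ κ * κ := Nat.mul_le_mul hcard hcard
            _ = κ ^ 2 := by ring
      _ = P * κ ^ 2 := by ring
  have hex : ∃ c : Fin (P * κ ^ 2 + 1), (∏ p ∈ S, q p).eval (((c : ℕ) : ℂ)) ≠ 0 := by
    by_contra hcon
    push Not at hcon
    refine hQ (eq_zero_of_natDegree_lt_card_of_eval_eq_zero _
      (f := fun c : Fin (P * κ ^ 2 + 1) => ((c : ℕ) : ℂ)) ?_ hcon ?_)
    · intro a b hab
      exact Fin.ext (Nat.cast_injective hab)
    · rw [Fintype.card_fin]; omega
  obtain ⟨c, hc⟩ := hex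
  refine ⟨c, Nat.lt_succ_iff.1 c.2, fun τ τ' hττ => ?_⟩
  by_contra hne
  have hmem : (τ, τ') ∈ S := by simp [S, hne]
  rw [eval_prod, Finset.prod_ne_zero_iff] at hc
  refine hc _ hmem ?_
  simp only [q, eval_finsetSum, eval_mul, eval_C, eval_pow, eval_X]
  simp only [map_sum, map_mul, map_pow, map_natCast] at hττ
  have : ∑ j : Fin P, (τ (x j) - τ' (x j)) * ((c : ℕ) : ℂ) ^ (j : ℕ) =
      (∑ j : Fin P, ((c : ℕ) : ℂ) ^ (j : ℕ) * τ (x j)) -
        ∑ j : Fin P, ((c : ℕ) : ℂ) ^ (j : ℕ) * τ' (x j) := by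
    rw [← Finset.sum_sub_distrib]
    exact Finset.sum_congr rfl fun j _ => by ring
  rw [this, hττ, sub_self]

lemma adjoin_top {α : F} (hinj : Function.Injective fun τ : F →+* ℂ => τ α) :
    Algebra.adjoin ℚ {α} = ⊤ := by
  have h1 : IntermediateField.adjoin ℚ {α} = ⊤ := by
    rw [Field.primitive_element_iff_algHom_eq_of_eval' ℚ ℂ
      (fun x => IsAlgClosed.splits _) α]
    intro φ ψ h
    have h2 : (φ : F →+* ℂ) = ψ := hinj h
    exact AlgHom.coe_ringHom_injective h2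
  have h3 := IntermediateField.adjoin_simple_toSubalgebra_of_isAlgebraic
    (Algebra.IsAlgebraic.isAlgebraic (R := ℚ) α)
  rw [← h3, h1, IntermediateField.top_toSubalgebra]

end prim

/-! ### coordinates -/

section coords

variable {F : Type} [Field F] [NumberField F]

lemma det_bd {k : ℕ} {M : Matrix (Fin k) (Fin k) ℂ} {A : ℝ} (h : ∀ i j, ‖M i j‖ ≤ A) :
    ‖M.det‖ ≤ (k.factorial : ℝ) * A ^ k := by
  have h1 := Matrix.det_le (A := M) (abv := NormedField.toAbsoluteValue ℂ) (x := A) h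
  rw [Fintype.card_fin, nsmul_eq_mul] at h1
  exact h1

lemma adj_bd {k : ℕ} {M : Matrix (Fin k) (Fin k) ℂ} {A : ℝ} (hA : 1 ≤ A) (h : ∀ i j, ‖M i j‖ ≤ A)
    (i j : Fin k) : ‖M.adjugate i j‖ ≤ (k.factorial : ℝ) * A ^ k := by
  rw [Matrix.adjugate_apply]
  refine det_bd fun a b => ?_
  rw [Matrix.updateRow_apply]
  split_ifs with hab
  · rw [Pi.single_apply]
    split_ifs
    · rw [norm_one]; exact hA
    · rw [norm_zero]; linarith
  · exact h a b

/-- integral elements of `ℤ[α]` -/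
lemma mem_adjoin_int {α : F} (hα : IsIntegral ℤ α) {w : F} (hw : w ∈ Algebra.adjoin ℤ {α}) :
    ∃ ζ : Fin (minpoly ℚ α).natDegree → ℤ, w = ∑ l, (ζ l : F) * α ^ (l : ℕ) := by
  rw [Algebra.adjoin_singleton_eq_range_aeval] at hw
  obtain ⟨p, rfl⟩ := hw
  have hm := minpoly.monic hα
  have hdeg : (minpoly ℤ α).natDegree = (minpoly ℚ α).natDegree := by
    rw [minpoly.isIntegrallyClosed_eq_field_fractions' ℚ hα, hm.natDegree_map]
  have hlt : (p %ₘ minpoly ℤ α).natDegree < (minpoly ℚ α).natDegree := by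
    rw [← hdeg]
    refine natDegree_modByMonic_lt _ hm ?_
    intro h1
    have := minpoly.natDegree_pos hα
    rw [h1, natDegree_one] at this
    exact lt_irrefl _ this
  refine ⟨fun l => (p %ₘ minpoly ℤ α).coeff l, ?_⟩
  have h2 : aeval α p = aeval α (p %ₘ minpoly ℤ α) := by
    conv_lhs => rw [← modByMonic_add_div p (minpoly ℤ α)]
    rw [map_add, map_mul, minpoly.aeval, zero_mul, add_zero]
  change aeval α p = _
  rw [h2, aeval_eq_sum_range' hlt, Finset.sum_range]
  refine Finset.sum_congr rfl fun l _ => ?_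
  rw [zsmul_eq_mul]

lemma coords {α : F} (hα : IsIntegral ℤ α) (htop : Algebra.adjoin ℚ {α} = ⊤) {A : ℝ} (hA : 1 ≤ A)
    (hb : ∀ τ : F →+* ℂ, ‖τ α‖ ≤ A) : ∃ (k : ℕ) (m : Fin k → ℤ) (D : ℕ),
    k = Module.finrank ℚ F ∧ D ≠ 0 ∧ (D : ℝ) ≤ ((k.factorial : ℝ) * (A ^ k) ^ k) ^ 2 ∧
    (∀ l, ((|m l| : ℤ) : ℝ) ≤ A ^ k * 2 ^ k) ∧ α ^ k + ∑ l, (m l : F) * α ^ (l : ℕ) = 0 ∧
    (∀ c : Fin k → ℤ, ∑ l, (c l : F) * α ^ (l : ℕ) = 0 → c = 0) ∧
    ∀ (z : F) (B : ℝ), IsIntegral ℤ z → (∀ τ : F →+* ℂ, ‖τ z‖ ≤ B) →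
      ∃ ζ : Fin k → ℤ, (D : F) * z = ∑ l, (ζ l : F) * α ^ (l : ℕ) ∧
        ∀ l, ((|ζ l| : ℤ) : ℝ) ≤ k * ((k.factorial : ℝ) * (A ^ k) ^ k) * (D * B) := by
  classical
  have hαQ : IsIntegral ℚ α := hα.tower_top
  let pb := PowerBasis.ofAdjoinEqTop hαQ htop
  have hgen : pb.gen = α := PowerBasis.ofAdjoinEqTop_gen hαQ htop
  have hdim : pb.dim = (minpoly ℚ α).natDegree := PowerBasis.ofAdjoinEqTop_dim hαQ htop
  set k := (minpoly ℚ α).natDegree with hk
  have hfin : k = Module.finrank ℚ F := by rw [pb.finrank, hdim]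
  have hbas : ∀ l : Fin pb.dim, pb.basis l = α ^ (l : ℕ) := fun l => by
    rw [pb.basis_eq_pow, hgen]
  -- embeddings
  have hcard : Fintype.card (Fin pb.dim) = Fintype.card (F →ₐ[ℚ] ℂ) := by
    rw [AlgHom.card, Fintype.card_fin, pb.finrank]
  let e : Fin pb.dim ≃ (F →ₐ[ℚ] ℂ) := Fintype.equivOfCardEq hcard
  let V : Matrix (Fin pb.dim) (Fin pb.dim) ℂ := Algebra.embeddingsMatrixReindex ℚ ℂ pb.basis e
  have hV : ∀ l i, V l i = e i α ^ (l : ℕ) := by
    intro l i
    change e i (pb.basis l) = _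
    rw [hbas, map_pow]
  have hAk : ∀ l : ℕ, l ≤ pb.dim → ∀ i, ‖e i α ^ l‖ ≤ A ^ k := by
    intro l hl i
    rw [norm_pow]
    calc ‖e i α‖ ^ l ≤ A ^ l := pow_le_pow_left₀ (norm_nonneg _) (hb (e i : F →+* ℂ)) l
      _ ≤ A ^ k := pow_le_pow_right₀ hA (by rw [← hdim]; exact hl)
  have hVbd : ∀ l i, ‖V l i‖ ≤ A ^ k := fun l i => by
    rw [hV]; exact hAk l l.2.le i
  have h1k : 1 ≤ A ^ k := one_le_pow₀ hA
  have efac : (pb.dim.factorial : ℝ) * (A ^ k) ^ pb.dim = (k.factorial : ℝ) * (A ^ k) ^ k := by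
    rw [hdim]
  -- the discriminant
  have hdi : IsIntegral ℤ (Algebra.discr ℚ pb.basis) := Algebra.discr_isIntegral ℚ fun l => by
    rw [hbas]; exact hα.pow _
  obtain ⟨d, hd⟩ := IsIntegrallyClosed.isIntegral_iff.1 hdi
  have hd' : (d : ℚ) = Algebra.discr ℚ pb.basis := hd
  have hd0 : d ≠ 0 := by
    rintro rfl
    exact Algebra.discr_not_zero_of_basis ℚ pb.basis (by rw [← hd', Int.cast_zero])
  have hdet : ((d : ℤ) : ℂ) = V.det ^ 2 := by
    have := Algebra.discr_eq_det_embeddingsMatrixReindex_pow_two ℚ ℂ pb.basis e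
    rw [← this, ← hd']
    simp
  have hDn : ((d.natAbs : ℕ) : ℝ) = ‖V.det‖ ^ 2 := by
    rw [← norm_pow, ← hdet, Complex.norm_intCast, Nat.cast_natAbs, Int.cast_abs]
  have hD1 : (1 : ℝ) ≤ (d.natAbs : ℕ) := by
    have : 0 < d.natAbs := Int.natAbs_pos.2 hd0
    exact_mod_cast this
  have hdet1 : 1 ≤ ‖V.det‖ := by
    rw [hDn] at hD1
    by_contra hcon
    push Not at hcon
    have := norm_nonneg V.det
    nlinarith
  -- the coefficients of the minimal polynomial
  have hm := minpoly.monic hα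
  have hmap := minpoly.isIntegrallyClosed_eq_field_fractions' ℚ hα
  have hdegZ : (minpoly ℤ α).natDegree = k := by
    rw [hk, hmap, hm.natDegree_map]
  refine ⟨k, fun l => (minpoly ℤ α).coeff l, d.natAbs, hfin, (Int.natAbs_pos.2 hd0).ne', ?_, ?_, ?_,
    ?_, ?_⟩
  · rw [hDn]
    refine pow_le_pow_left₀ (norm_nonneg _) ?_ 2
    rw [← efac]
    exact det_bd hVbd
  · intro l
    have h1 := NumberField.Embeddings.coeff_bdd_of_norm_le (A := ℂ) (x := α) (B := A) hb l
    rw [hmap, coeff_map, max_eq_left hA, ← hfin] at h1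
    have h2 : ((k.choose (k / 2) : ℕ) : ℝ) ≤ 2 ^ k := by
      exact_mod_cast Nat.choose_le_two_pow k (k / 2)
    have h3 : ((|(minpoly ℤ α).coeff l| : ℤ) : ℝ) = ‖(algebraMap ℤ ℚ) ((minpoly ℤ α).coeff l)‖ := by
      simp [Int.norm_eq_abs]
    rw [h3]
    exact h1.trans (mul_le_mul_of_nonneg_left h2 (by positivity))
  · have h1 := minpoly.aeval ℤ α
    rw [hm.as_sum, hdegZ, map_add, map_pow, aeval_X, map_sum, Finset.sum_range] at h1
    simpa using h1
  · intro c hc
    have h1 := pb.basis.linearIndependent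
    rw [Fintype.linearIndependent_iff] at h1
    have hcast : ∀ l : Fin k, (l : ℕ) < pb.dim := fun l => by rw [hdim]; exact l.2
    have h2 := h1 (fun l => (c (Fin.cast hdim l) : ℚ)) (by
      rw [← hc]
      refine Fintype.sum_equiv (finCongr hdim) _ _ fun l => ?_
      rw [hbas, Algebra.smul_def]
      simp)
    funext l
    have h3 := h2 (Fin.cast hdim.symm l)
    simpa using h3
  · intro z B hz hzB
    have hmem := Algebra.discr_mul_isIntegral_mem_adjoin ℚ (B := pb) (by rw [hgen]; exact hα) hz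
    rw [hgen, ← hd'] at hmem
    have hmem' : (d : F) * z ∈ Algebra.adjoin ℤ {α} := by
      have : ((d : ℚ) • z : F) = (d : F) * z := by
        rw [Algebra.smul_def]; simp
      rwa [this] at hmem
    obtain ⟨ζ, hζ⟩ := mem_adjoin_int hα hmem'
    have hsg : (d.natAbs : F) = (d.sign : F) * (d : F) := by
      have : ((d.natAbs : ℤ)) = d.sign * d := (Int.sign_mul_self_eq_natAbs d).symm
      rw [← Int.cast_natCast (R := F) d.natAbs, this, Int.cast_mul]
    have hDz : (d.natAbs : F) * z = ∑ l, ((d.sign * ζ l : ℤ) : F) * α ^ (l : ℕ) := by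
      rw [hsg, mul_assoc, hζ, Finset.mul_sum]
      refine Finset.sum_congr rfl fun l _ => ?_
      push_cast
      ring
    refine ⟨fun l => d.sign * ζ l, hDz, ?_⟩
    -- Cramer
    let w : Fin pb.dim → ℂ := fun i => (d.natAbs : ℂ) * e i z
    let ξ : Fin pb.dim → ℂ := fun l => ((d.sign * ζ (Fin.cast hdim l) : ℤ) : ℂ)
    have hw : Matrix.vecMul ξ V = w := by
      funext i
      have h1 := congrArg (e i) hDz
      simp only [map_mul, map_natCast, map_sum, map_intCast, map_pow] at h1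
      change ∑ l, ξ l * V l i = (d.natAbs : ℂ) * e i z
      rw [h1]
      refine Fintype.sum_equiv (finCongr hdim) _ _ fun l => ?_
      rw [hV]
      simp [ξ]
    have hcr : Matrix.vecMul w V.adjugate = V.det • ξ := by
      rw [← hw, Matrix.vecMul_vecMul, Matrix.mul_adjugate, Matrix.vecMul_smul, Matrix.vecMul_one]
    have hwb : ∀ i, ‖w i‖ ≤ d.natAbs * B := by
      intro i
      change ‖(d.natAbs : ℂ) * e i z‖ ≤ _
      rw [norm_mul, Complex.norm_natCast]
      exact mul_le_mul_of_nonneg_left (hzB (e i : F →+* ℂ)) (Nat.cast_nonneg _)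
    intro l
    have h1 := congrFun hcr (Fin.cast hdim.symm l)
    have h2 : ‖Matrix.vecMul w V.adjugate (Fin.cast hdim.symm l)‖ ≤
        k * ((k.factorial : ℝ) * (A ^ k) ^ k) * (d.natAbs * B) := by
      change ‖∑ i, w i * V.adjugate i (Fin.cast hdim.symm l)‖ ≤ _
      calc ‖∑ i, w i * V.adjugate i (Fin.cast hdim.symm l)‖ ≤
            ∑ i, ‖w i * V.adjugate i (Fin.cast hdim.symm l)‖ := norm_sum_le _ _
        _ ≤ ∑ _i : Fin pb.dim, (d.natAbs * B) * ((k.factorial : ℝ) * (A ^ k) ^ k) := by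
            refine Finset.sum_le_sum fun i _ => ?_
            rw [norm_mul]
            have h3 := adj_bd h1k hVbd i (Fin.cast hdim.symm l)
            rw [efac] at h3
            exact mul_le_mul (hwb i) h3 (norm_nonneg _) ((norm_nonneg _).trans (hwb i))
        _ = _ := by
            rw [Finset.sum_const, Finset.card_univ, Fintype.card_fin, hdim, nsmul_eq_mul]
            ring
    rw [h1, Pi.smul_apply, smul_eq_mul, norm_mul] at h2
    have h3 : ‖ξ (Fin.cast hdim.symm l)‖ = ((|d.sign * ζ l| : ℤ) : ℝ) := by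
      change ‖((d.sign * ζ (Fin.cast hdim (Fin.cast hdim.symm l)) : ℤ) : ℂ)‖ = _
      rw [Complex.norm_intCast, Int.cast_abs]
      simp
    rw [h3] at h2
    refine le_trans ?_ h2
    have h4 : (0 : ℝ) ≤ ((|d.sign * ζ l| : ℤ) : ℝ) := by
      exact_mod_cast abs_nonneg _
    nlinarith

end coords

end Pool.Agent.N264.HC
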