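import Pool.Agent.N741.HB.Stm3
import Pool.Agent.N264.HC.Code

/-!
# Project HC (helper741), part H1: coordinates of elements of small height of a number field, 2
-/

set_option autoImplicit false

namespace Pool.Agent.N264.HC

open Pool.Agent.N741.HC

lemma nat_le_pow {Z : ℝ} (hZ : 2 ≤ Z) (n : ℕ) : (n : ℝ) ≤ Z ^ n := by
  have h1 : (n : ℝ) ≤ 2 ^ n := by exact_mod_cast Nat.lt_two_pow_self.le
  exact h1.trans (pow_le_pow_left₀ (by norm_num) hZ n)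

theorem code : S_code := by
  intro P κ
  obtain ⟨a₀, ha₀⟩ : ∃ a₀ : ℕ, a₀ = P * (P * κ ^ 2 + 1) ^ P := ⟨_, rfl⟩
  obtain ⟨a, ha⟩ : ∃ a : ℕ, a = a₀ + (P + 1) := ⟨_, rfl⟩
  obtain ⟨G, hG⟩ : ∃ G : ℕ, G = κ.factorial + a * κ * κ := ⟨_, rfl⟩
  refine ⟨a * κ + κ + 3 * G + P + 1, ?_⟩
  intro K _ _ Y y hκ hY hy
  obtain ⟨Z, hZ⟩ : ∃ Z : ℝ, Z = (Y : ℝ) + 1 := ⟨_, rfl⟩
  have hY1 : (1 : ℝ) ≤ Y := by exact_mod_cast hY
  have hZ2 : (2 : ℝ) ≤ Z := by rw [hZ]; linarith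
  have hZ1 : (1 : ℝ) ≤ Z := by linarith
  have hZ0 : (0 : ℝ) ≤ Z := by linarith
  have hYZ : (Y : ℝ) ≤ Z := by rw [hZ]; linarith
  have hmono : ∀ {p q : ℕ}, p ≤ q → Z ^ p ≤ Z ^ q := fun h => pow_le_pow_right₀ hZ1 h
  -- denominators
  choose n hn0 hnle hnint using fun j => NumberField.exists_nat_le_mulHeight₁ (y j)
  have hnY : ∀ j, n j ≤ Y := fun j => by exact_mod_cast (hnle j).trans (hy j)
  obtain ⟨D₁, hD₁⟩ : ∃ D₁ : ℕ, D₁ = ∏ j, n j := ⟨_, rfl⟩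
  have hD₁0 : D₁ ≠ 0 := by rw [hD₁]; exact Finset.prod_ne_zero_iff.2 fun j _ => hn0 j
  have hD₁Y : D₁ ≤ Y ^ P := by
    rw [hD₁]
    have := Finset.prod_le_pow_card Finset.univ n Y fun j _ => hnY j
    simpa using this
  have hint : ∀ j, IsIntegral ℤ ((D₁ : K) * y j) := by
    intro j
    classical
    have h1 : (D₁ : K) * y j = ((∏ i ∈ Finset.univ.erase j, n i : ℕ) : K) * (n j * y j) := by
      rw [hD₁, ← Finset.mul_prod_erase Finset.univ n (Finset.mem_univ j)]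
      push_cast
      ring
    rw [h1]
    refine IsIntegral.mul ?_ (hnint j)
    exact isIntegral_algebraMap (R := ℤ) (A := K)
      (x := ((∏ i ∈ Finset.univ.erase j, n i : ℕ) : ℤ)) |> fun h => by simpa using h
  obtain ⟨K₀, hK₀⟩ : ∃ K₀ : IntermediateField ℚ K, K₀ = IntermediateField.adjoin ℚ (Set.range y) :=
    ⟨_, rfl⟩
  have hyK : ∀ j, y j ∈ K₀ := fun j => by
    rw [hK₀]; exact IntermediateField.subset_adjoin _ _ ⟨j, rfl⟩
  let yy : Fin P → K₀ := fun j => ⟨y j, hyK j⟩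
  let x : Fin P → K₀ := fun j => (D₁ : K₀) * yy j
  have hxK : ∀ j, ((x j : K₀) : K) = (D₁ : K) * y j := fun j => by simp [x, yy]
  have hxint : ∀ j, IsIntegral ℤ (x j) := by
    intro j
    rw [← isIntegral_algebraMap_iff (R := ℤ) (A := K₀) (B := K) (algebraMap K₀ K).injective]
    change IsIntegral ℤ ((x j : K₀) : K)
    rw [hxK]
    exact hint j
  have hxb : ∀ (τ : K₀ →+* ℂ) j, ‖τ (x j)‖ ≤ Z ^ (P + 1) := by
    intro τ j
    have h1 := NumberField.ComplexEmbedding.lift_algebraMap_apply K τ (x j)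
    rw [← h1]
    change ‖NumberField.ComplexEmbedding.lift K τ ((x j : K₀) : K)‖ ≤ _
    rw [hxK, map_mul, map_natCast, norm_mul, Complex.norm_natCast, pow_succ]
    refine mul_le_mul ?_ ?_ (norm_nonneg _) (by positivity)
    · calc (D₁ : ℝ) ≤ (Y : ℝ) ^ P := by exact_mod_cast hD₁Y
        _ ≤ Z ^ P := pow_le_pow_left₀ (Nat.cast_nonneg _) hYZ _
    · exact (norm_le_mulHeight₁ _ _).trans ((hy j).trans hYZ)
  have hsep : ∀ τ τ' : K₀ →+* ℂ, (∀ j, τ (x j) = τ' (x j)) → τ = τ' := by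
    intro τ τ' h
    have h1 : τ.toRatAlgHom = τ'.toRatAlgHom := by
      refine IntermediateField.algHom_ext_of_eq_adjoin (F := ℚ) (hS := hK₀) ?_
      rintro _ ⟨j, rfl⟩
      have h2 := h j
      simp only [x, map_mul, map_natCast] at h2
      have h3 : (D₁ : ℂ) ≠ 0 := by exact_mod_cast hD₁0
      exact mul_left_cancel₀ h3 h2
    ext z
    exact AlgHom.congr_fun h1 z
  have hκ₀ : Module.finrank ℚ K₀ ≤ κ :=
    (LinearMap.finrank_le_finrank_of_injective (f := K₀.val.toLinearMap)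
      K₀.val.injective).trans hκ
  obtain ⟨c, hc, hinj⟩ := exists_prim hκ₀ x hsep
  obtain ⟨α, hα⟩ : ∃ α : K₀, α = ∑ j : Fin P, (c : K₀) ^ (j : ℕ) * x j := ⟨_, rfl⟩
  rw [← hα] at hinj
  have hαint : IsIntegral ℤ α := by
    rw [hα]
    refine IsIntegral.sum _ fun j _ => ?_
    refine IsIntegral.mul (IsIntegral.pow ?_ _) (hxint j)
    exact isIntegral_algebraMap (R := ℤ) (A := K₀) (x := (c : ℤ)) |> fun h => by simpa using h
  have hαb : ∀ τ : K₀ →+* ℂ, ‖τ α‖ ≤ Z ^ a := by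
    intro τ
    rw [hα, map_sum]
    calc ‖∑ j : Fin P, τ ((c : K₀) ^ (j : ℕ) * x j)‖ ≤
          ∑ j : Fin P, ‖τ ((c : K₀) ^ (j : ℕ) * x j)‖ := norm_sum_le _ _
      _ ≤ ∑ _j : Fin P, ((P * κ ^ 2 + 1 : ℕ) : ℝ) ^ P * Z ^ (P + 1) := by
          refine Finset.sum_le_sum fun j _ => ?_
          rw [map_mul, map_pow, map_natCast, norm_mul, norm_pow, Complex.norm_natCast]
          refine mul_le_mul ?_ (hxb τ j) (norm_nonneg _) (by positivity)
          have h1 : (c : ℝ) ≤ ((P * κ ^ 2 + 1 : ℕ) : ℝ) := by exact_mod_cast hc.trans (Nat.le_succ _)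
          calc (c : ℝ) ^ (j : ℕ) ≤ ((P * κ ^ 2 + 1 : ℕ) : ℝ) ^ (j : ℕ) :=
                pow_le_pow_left₀ (Nat.cast_nonneg _) h1 _
            _ ≤ ((P * κ ^ 2 + 1 : ℕ) : ℝ) ^ P :=
                pow_le_pow_right₀ (by exact_mod_cast Nat.le_add_left 1 _) j.2.le
      _ = (a₀ : ℝ) * Z ^ (P + 1) := by
          rw [Finset.sum_const, Finset.card_univ, Fintype.card_fin, nsmul_eq_mul, ha₀]
          push_cast
          ring
      _ ≤ Z ^ a₀ * Z ^ (P + 1) := mul_le_mul_of_nonneg_right (nat_le_pow hZ2 a₀) (by positivity)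
      _ = Z ^ a := by rw [ha, ← pow_add]
  obtain ⟨k, m, D, hk, hD0, hDb, hmb, hroot, hlin, hco⟩ :=
    coords hαint (adjoin_top hinj) (one_le_pow₀ hZ1 (n := a)) hαb
  have hkκ : k ≤ κ := by rw [hk]; exact hκ₀
  have hk1 : 1 ≤ k := by rw [hk]; exact Module.finrank_pos
  have hkZ : (k : ℝ) ≤ Z ^ κ := (nat_le_pow hZ2 k).trans (hmono hkκ)
  have hdet : (k.factorial : ℝ) * ((Z ^ a) ^ k) ^ k ≤ Z ^ G := by
    have e0 : ((Z ^ a) ^ k) ^ k = Z ^ (a * k * k) := by simp only [← pow_mul, mul_assoc]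
    rw [hG, pow_add, e0]
    refine mul_le_mul ?_ (hmono ?_) (by positivity) (by positivity)
    · exact (nat_le_pow hZ2 _).trans (hmono (Nat.factorial_le hkκ))
    · exact Nat.mul_le_mul (Nat.mul_le_mul_left _ hkκ) hkκ
  have hdet0 : 0 ≤ (k.factorial : ℝ) * ((Z ^ a) ^ k) ^ k := by positivity
  have hDZ : (D : ℝ) ≤ Z ^ (2 * G) := by
    refine hDb.trans ?_
    rw [mul_comm 2 G, pow_mul]
    exact pow_le_pow_left₀ hdet0 hdet 2
  have hco' : ∀ (z : K₀) (B : ℝ), IsIntegral ℤ z → (∀ τ : K₀ →+* ℂ, ‖τ z‖ ≤ B) →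
      ∃ ζ : Fin k → ℤ, (D : K₀) * z = ∑ l, (ζ l : K₀) * α ^ (l : ℕ) ∧
        ∀ l, ((|ζ l| : ℤ) : ℝ) ≤ B * Z ^ (κ + 3 * G) := by
    intro z B hz hB
    obtain ⟨ζ, h1, h2⟩ := hco z B hz hB
    have hB0 : 0 ≤ B := by
      obtain ⟨τ⟩ : Nonempty (K₀ →+* ℂ) := inferInstance
      exact (norm_nonneg _).trans (hB τ)
    refine ⟨ζ, h1, fun l => (h2 l).trans ?_⟩
    calc (k : ℝ) * ((k.factorial : ℝ) * ((Z ^ a) ^ k) ^ k) * (D * B) ≤
          Z ^ κ * Z ^ G * (Z ^ (2 * G) * B) := by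
          refine mul_le_mul (mul_le_mul hkZ hdet hdet0 (by positivity))
            (mul_le_mul_of_nonneg_right hDZ hB0) (by positivity) (by positivity)
      _ = B * Z ^ (κ + 3 * G) := by ring
  have hv := fun j => hco' (x j) (Z ^ (P + 1)) (hxint j) fun τ => hxb τ j
  choose v hv1 hv2 using hv
  -- from real bounds to integer bounds
  have hcastZ : ∀ (t : ℤ) (p : ℕ), p ≤ a * κ + κ + 3 * G + P + 1 → ((|t| : ℤ) : ℝ) ≤ Z ^ p →
      |t| ≤ ((Y : ℤ) + 1) ^ (a * κ + κ + 3 * G + P + 1) := by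
    intro t p hp ht
    have h1 := ht.trans (hmono hp)
    rw [hZ] at h1
    exact_mod_cast h1
  have hcastN : ∀ (t p : ℕ), p ≤ a * κ + κ + 3 * G + P + 1 → (t : ℝ) ≤ Z ^ p →
      t ≤ (Y + 1) ^ (a * κ + κ + 3 * G + P + 1) := by
    intro t p hp ht
    have h1 := ht.trans (hmono hp)
    rw [hZ] at h1
    exact_mod_cast h1
  refine ⟨k, K₀, α, m, D, D₁, v, hk1, hkκ, hyK, hD0, hD₁0, ?_, ?_, ?_, ?_, hroot, hlin, ?_, ?_⟩
  · exact hcastN D (2 * G) (by omega) hDZ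
  · refine hcastN D₁ P (by omega) ?_
    calc (D₁ : ℝ) ≤ (Y : ℝ) ^ P := by exact_mod_cast hD₁Y
      _ ≤ Z ^ P := pow_le_pow_left₀ (Nat.cast_nonneg _) hYZ _
  · intro l
    refine hcastZ (m l) (a * κ + κ) (by omega) ((hmb l).trans ?_)
    rw [pow_add, ← pow_mul]
    refine mul_le_mul (hmono (Nat.mul_le_mul_left _ hkκ)) ?_ (by positivity) (by positivity)
    exact (pow_le_pow_left₀ (by norm_num) hZ2 k).trans (hmono hkκ)
  · intro j l
    refine hcastZ (v j l) ((P + 1) + (κ + 3 * G)) (by omega) ((hv2 j l).trans ?_)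
    rw [pow_add Z (P + 1)]
  · intro j
    have h1 := congrArg (fun w : K₀ => (w : K)) (hv1 j)
    rw [← hxK]
    have e1 : (((D : K₀) * x j : K₀) : K) = (D : K) * ((x j : K₀) : K) := by
      rw [MulMemClass.coe_mul]; simp
    have e2 : ((∑ l, (v j l : K₀) * α ^ (l : ℕ) : K₀) : K) =
        ∑ l, (v j l : K) * (α : K) ^ (l : ℕ) := by
      push_cast
      rfl
    rw [← e1, ← e2]
    exact h1
  · intro z B hz hB
    obtain ⟨ζ, h1, h2⟩ := hco' z B hz hB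
    have hB0 : 0 ≤ B := by
      obtain ⟨τ⟩ : Nonempty (K₀ →+* ℂ) := inferInstance
      exact (norm_nonneg _).trans (hB τ)
    refine ⟨ζ, h1, fun l => (h2 l).trans ?_⟩
    rw [← hZ]
    exact mul_le_mul_of_nonneg_left (hmono (by omega)) hB0

end Pool.Agent.N264.HC
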